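import Mathlib
import Pool.Agent.T2H34.OutA

/-!
The large prime factors of `d` and of `d'`, for the factorisations `d d' = n ^ 2 + 1` with `d, d' ≤ X`,
are asymptotically independent for almost all `X`; each of them is distributed as for the norm
`x ^ 2 + y ^ 2` of a random Gaussian integer, and all this is independent of the numbers of prime
factors modulo `k`.

Method: entropy decrement over the pairs of Gaussian integers of determinant one; the bilinear
estimate for functions of the large prime factors comes from a theorem of Matomaki-Radziwill type for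
the angles of the Gaussian integers which is uniform in an arbitrary function of the part of the norm
free of the primes of a sparse set, and from a sieve with level of distribution for the residue
classes.
-/

set_option autoImplicit false

namespace Pool.Agent.Results.MP_7169d5_nt.LargePrimeIndependence

open Finset Filter ArithmeticFunction

/-- the set of the prime divisors of `m` which are larger than `m ^ b` -/
noncomputable def largePrimes (b : ℝ) (m : ℕ) : Finset ℕ :=
  m.primeFactors.filter (fun p => (m : ℝ) ^ b < p)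

open scoped Classical in
/-- the pairs `(d, d')` of positive integers at most `X` with `d d' = n ^ 2 + 1` for some `n ≥ 0` -/
noncomputable def Pairs (X : ℕ) : Finset (ℕ × ℕ) :=
  (Icc 1 X ×ˢ Icc 1 X).filter (fun p => ∃ n : ℕ, p.1 * p.2 = n ^ 2 + 1)

open scoped Classical in
/-- the number of the integer points `(x, y)` with `1 ≤ x ^ 2 + y ^ 2 ≤ X` such that `x ^ 2 + y ^ 2`
has the property `Q` -/
noncomputable def discCount (Q : ℕ → Prop) (X : ℕ) : ℕ :=
  ((Icc (-(X : ℤ)) X ×ˢ Icc (-(X : ℤ)) X).filter (fun z : ℤ × ℤ => 1 ≤ z.1 ^ 2 + z.2 ^ 2 ∧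
    z.1 ^ 2 + z.2 ^ 2 ≤ X ∧ Q (z.1 ^ 2 + z.2 ^ 2).toNat)).card

/-- the proportion of these points with the property `Q` -/
noncomputable def disc (Q : ℕ → Prop) (X : ℕ) : ℝ := (discCount Q X : ℝ) / discCount (fun _ => True) X

open scoped Classical in
/-- the set of the positive integers `X` with `P X` has logarithmic density `0` -/
def LogNull (P : ℕ → Prop) : Prop :=
  Tendsto (fun Z : ℕ => (∑ X ∈ (Icc 1 Z).filter P, 1 / (X : ℝ)) / Real.log Z) atTop (nhds 0)

open scoped Classical in
/-- Let `b` and `b'` be finite families of positive numbers, and let `E`, `E'` be arbitrary sets of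
families of finite sets of primes; let `E(m)` mean that the family of the sets `largePrimes b_j m` is
in `E`, and `E'(m)` the same for `b'` and `E'`. Let `k ≥ 1` and `i`, `j` be integers and `ε > 0`. For
almost all `X`, in the sense of logarithmic density, the proportion of the pairs `(d, d')` with `E(d)`,
`E'(d')`, `Ω(d) ≡ i` and `Ω(d') ≡ j` modulo `k` among all pairs in `Pairs X` differs by at most `ε` from
`disc E X * disc E' X / k ^ 2`. -/
theorem result {ι κ : Type} [Fintype ι] [Fintype κ] (b : ι → ℝ) (b' : κ → ℝ) (hb : ∀ l, 0 < b l)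
    (hb' : ∀ l, 0 < b' l) (E : Set (ι → Finset ℕ)) (E' : Set (κ → Finset ℕ)) (k i j : ℕ) (hk : 1 ≤ k)
    (ε : ℝ) (hε : 0 < ε) : LogNull (fun X : ℕ => ε * (Pairs X).card <
      |(((Pairs X).filter (fun p => (fun l => largePrimes (b l) p.1) ∈ E ∧
          (fun l => largePrimes (b' l) p.2) ∈ E' ∧
          cardFactors p.1 ≡ i [MOD k] ∧ cardFactors p.2 ≡ j [MOD k])).card : ℝ) -
        disc (fun m => (fun l => largePrimes (b l) m) ∈ E) X *
          disc (fun m => (fun l => largePrimes (b' l) m) ∈ E') X / k ^ 2 * (Pairs X).card|) := by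
  obtain ⟨c, hc, X₀, h1⟩ := Pool.Agent.W251.EX.outP 1 0 le_rfl
  have h2 : ∀ X : ℕ, X₀ ≤ X → c * X ≤ ((Pairs X).card : ℝ) := by
    intro X hX
    refine (h1 X hX).trans ?_
    apply Nat.cast_le.2
    apply Finset.card_le_card
    intro p hp
    unfold Pairs
    rw [mem_filter] at hp ⊢
    obtain ⟨h1, n, h2, -⟩ := hp
    exact ⟨h1, n, h2⟩
  have h := Pool.Agent.T2H34.law hk (Pool.Agent.T2H34.Ad_ev hb E) (Pool.Agent.T2H34.Ad_ev hb' E')
      i j (ε * c) (by positivity)
  have hd : ∀ X : ℕ, Pool.Agent.T2H34.dv k i j (Pool.Agent.T2H34.ev b E)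
        (Pool.Agent.T2H34.ev b' E') X =
        |(((Pairs X).filter (fun p => (fun l => largePrimes (b l) p.1) ∈ E ∧
          (fun l => largePrimes (b' l) p.2) ∈ E' ∧
          cardFactors p.1 ≡ i [MOD k] ∧ cardFactors p.2 ≡ j [MOD k])).card : ℝ) -
        disc (fun m => (fun l => largePrimes (b l) m) ∈ E) X *
          disc (fun m => (fun l => largePrimes (b' l) m) ∈ E') X / k ^ 2 * (Pairs X).card| := by
    intro X
    unfold Pool.Agent.T2H34.dv
    rw [Pool.Agent.T2H34.av_eq, Pool.Agent.T2H34.av_eq]
    simp only [Pool.Agent.T2H34.ev_one]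
    have e1 : ∀ x y z w : ℝ, |x - 1 / (k : ℝ) ^ 2 * (y * z * w)| = |x - y * z / (k : ℝ) ^ 2 * w| := by
      intro x y z w
      congr 1
      ring
    rw [e1]
    rfl
  simp only [hd] at h
  refine Pool.Agent.TH890.DV.LogNull.of_ev X₀ (fun X hX h3 => lt_of_le_of_lt ?_ h3) h
  rw [mul_assoc]
  exact mul_le_mul_of_nonneg_left (h2 X hX) hε.le

end Pool.Agent.Results.MP_7169d5_nt.LargePrimeIndependence
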