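import Mathlib
import Pool.Agent.T2H34.OutB

/-!
Integers `n` for which `n ^ 2 + 1` has prescribed large prime factors, up to a small cofactor, and a
prescribed number of prime factors modulo `k`.

Examples (`X ≥ n` large, `ε > 0`): `n ^ 2 + 1 = w p q` with primes `p, q` in `(X ^ (1 - ε), X]` and
`w ≤ 2 X ^ (2 ε)` (`r = s = 1`); `n ^ 2 + 1 = w p m` with a prime `p` in `(X ^ (1 - ε), X]` and all
prime factors of `w m` at most `2 X ^ (2 ε)` (`r = 1`, `s` large); all prime factors of `n ^ 2 + 1` are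
at most `2 X ^ (2 ε)` (`r`, `s` large); in all cases with the primes in prescribed sets of primes of
positive density, and with `Ω(n ^ 2 + 1)` in a prescribed residue class modulo `k`.
-/

set_option autoImplicit false

namespace Pool.Agent.Results.MP_7169d5_nt.PrescribedLargePrimes

open Finset Filter ArithmeticFunction

open scoped Classical in
/-- The set `P` has, for every `λ > 1`, a positive proportion of the primes `≡ 1 mod 4` between `y`
and `y ^ λ` for all large `y`, in the sense of the sums of the reciprocals. -/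
def Thick (P : Set ℕ) : Prop := ∀ lam : ℝ, 1 < lam → ∃ c : ℝ, 0 < c ∧ ∃ y₀ : ℝ, ∀ y : ℝ, y₀ ≤ y →
  c ≤ ∑ p ∈ (Icc 1 ⌊y ^ lam⌋₊).filter (fun p : ℕ => p.Prime ∧ p % 4 = 1 ∧ p ∈ P ∧ y < (p : ℝ)),
    1 / (p : ℝ)

/-- `Ω(n ^ 2 + 1) ≡ j mod k`, and `n ^ 2 + 1` is the product of different primes `p_i` of the sets
`P_i` with `X ^ u_i < p_i ≤ X ^ v_i`, of different primes `q_i` of the sets `P'_i` with
`X ^ u'_i < q_i ≤ X ^ v'_i`, and of a cofactor `w` at most `2 X ^ (2 - ∑ u_i - ∑ u'_i)`. -/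
def Good {r s : ℕ} (u v : Fin r → ℝ) (P : Fin r → Set ℕ) (u' v' : Fin s → ℝ) (P' : Fin s → Set ℕ)
    (k j X n : ℕ) : Prop :=
  cardFactors (n ^ 2 + 1) ≡ j [MOD k] ∧
  ∃ (p : Fin r → ℕ) (q : Fin s → ℕ) (w : ℕ), Function.Injective p ∧ Function.Injective q ∧
    n ^ 2 + 1 = w * (∏ i, p i) * (∏ i, q i) ∧
    (w : ℝ) ≤ 2 * (X : ℝ) ^ (2 - ∑ i, u i - ∑ i, u' i) ∧
    (∀ i, (p i).Prime ∧ p i ∈ P i ∧ (X : ℝ) ^ u i < p i ∧ (p i : ℝ) ≤ (X : ℝ) ^ v i) ∧
    (∀ i, (q i).Prime ∧ q i ∈ P' i ∧ (X : ℝ) ^ u' i < q i ∧ (q i : ℝ) ≤ (X : ℝ) ^ v' i)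

open scoped Classical in
/-- the number of the integers `1 ≤ n ≤ X` with this property -/
noncomputable def count {r s : ℕ} (u v : Fin r → ℝ) (P : Fin r → Set ℕ) (u' v' : Fin s → ℝ)
    (P' : Fin s → Set ℕ) (k j X : ℕ) : ℕ := ((Icc 1 X).filter (Good u v P u' v' P' k j X)).card

open scoped Classical in
/-- the set of the positive integers `X` with `P X` has logarithmic density `0` -/
def LogNull (P : ℕ → Prop) : Prop :=
  Tendsto (fun Z : ℕ => (∑ X ∈ (Icc 1 Z).filter P, 1 / (X : ℝ)) / Real.log Z) atTop (nhds 0)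

/-- 1. The primes of a residue class `a mod q` with `4 ∣ q`, `(a, q) = 1`, `a ≡ 1 mod 4` are thick.

2. Let `0 < u_i < v_i` (`i < r`), `∑ v_i ≤ 1`, `0 < u'_i < v'_i` (`i < s`), `∑ v'_i ≤ 1`, let all sets
`P_i` and `P'_i` be thick, and let `k ≥ 1` and `j` be integers. For every `ε > 0` and almost all `X`, in
the sense of logarithmic density, at least `X / (log X) ^ (log 2 + ε)` integers `1 ≤ n ≤ X` are
`Good`. For every `δ > 0` and all large `X`, at least `X ^ (1 - δ)` integers `1 ≤ n ≤ X` are `Good`. -/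
theorem result :
    (∀ q a : ℕ, 0 < q → 4 ∣ q → a.Coprime q → a % 4 = 1 → Thick {p | p ≡ a [MOD q]}) ∧
    ∀ {r s : ℕ} (u v : Fin r → ℝ) (P : Fin r → Set ℕ) (u' v' : Fin s → ℝ) (P' : Fin s → Set ℕ)
      (k j : ℕ), 1 ≤ k → (∀ i, 0 < u i) → (∀ i, u i < v i) → ∑ i, v i ≤ 1 → (∀ i, Thick (P i)) →
      (∀ i, 0 < u' i) → (∀ i, u' i < v' i) → ∑ i, v' i ≤ 1 → (∀ i, Thick (P' i)) →
      (∀ ε : ℝ, 0 < ε → LogNull (fun X : ℕ =>
        (count u v P u' v' P' k j X : ℝ) < X / Real.log X ^ (Real.log 2 + ε))) ∧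
      ∀ δ : ℝ, 0 < δ → ∃ X₀ : ℕ, ∀ X : ℕ, X₀ ≤ X →
        (X : ℝ) ^ (1 - δ) ≤ count u v P u' v' P' k j X := by
  classical
  refine ⟨fun q a hq h4 ha ha4 => Pool.Agent.T2H34.thick_ap q a hq h4 ha ha4, ?_⟩
  intro r s u v P u' v' P' k j hk hu huv hv hP hu' huv' hv' hP'
  have hc : ∀ X : ℕ, Pool.Agent.T2H34.cG u v P u' v' P' k j X ≤ count u v P u' v' P' k j X := by
    intro X
    unfold Pool.Agent.T2H34.cG count
    apply Finset.card_le_card
    intro n hn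
    rw [mem_filter, mem_Icc] at hn ⊢
    exact ⟨hn.1, Pool.Agent.T2H34.cofac (hn.1.1.trans hn.1.2) hn.1.2 hn.2⟩
  constructor
  · intro ε hε
    have h := Pool.Agent.T2H34.cnt_scale hk j hu huv hv hP hu' huv' hv' hP' ε hε
    refine Pool.Agent.TH890.DV.LogNull.of_ev 0 (fun X _ h2 => ?_) h
    have h3 : (Pool.Agent.T2H34.cG u v P u' v' P' k j X : ℝ) ≤ count u v P u' v' P' k j X := by
      exact_mod_cast hc X
    exact lt_of_le_of_lt h3 h2
  · intro δ hδ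
    obtain ⟨X₀, h⟩ := Pool.Agent.T2H34.cnt_all hk j hu huv hv hP hu' huv' hv' hP' δ hδ
    refine ⟨X₀, fun X hX => (h X hX).trans ?_⟩
    exact_mod_cast hc X

end Pool.Agent.Results.MP_7169d5_nt.PrescribedLargePrimes
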