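import Mathlib
import Pool.Agent.T2H34.DhFin

/-!
Two point correlations of the number of prime factors of `n ^ 2 + 1` in very short arithmetic
progressions.

Let `n < d` with `d ∣ n ^ 2 + 1`, that is, `n` is a root of `x ^ 2 + 1 ≡ 0 mod d`. The positive
integers `m ≡ n mod d` are the numbers `n + t d`, `t ≥ 0`, and `m ^ 2 + 1 = d f(t)` with a quadratic
polynomial `f` of discriminant `-4` and leading coefficient `d`; every quadratic polynomial of
discriminant `-4` and leading coefficient `1 ≤ d ≤ X` comes, up to a translation of the variable, from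
exactly one pair `(d, n)` with `d ≤ X`. We consider fixed values of `t` and the average over all pairs
`(d, n)` with `d ≤ X`.
-/

set_option autoImplicit false

namespace Pool.Agent.Results.MP_7169d5_nt.ShortProgressions

open Finset Filter ArithmeticFunction

/-- the pairs `(d, n)` with `n < d ≤ X` and `d ∣ n ^ 2 + 1` -/
def pairs (X : ℕ) : Finset (ℕ × ℕ) :=
  ((Icc 1 X) ×ˢ (range X)).filter (fun p => p.2 < p.1 ∧ p.1 ∣ p.2 ^ 2 + 1)

/-- the numbers `Ω(d)` (for `none`) and `Ω(((n + t d) ^ 2 + 1) / d)` (for `some t`) of the pair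
`(d, n)` -/
def U : Option ℕ → ℕ × ℕ → ℕ
  | none, p => cardFactors p.1
  | some t, p => cardFactors (((p.2 + t * p.1) ^ 2 + 1) / p.1)

/-- the number `Ω((n + t d) ^ 2 + 1)` of the pair `(d, n)` -/
def W (t : ℕ) (p : ℕ × ℕ) : ℕ := cardFactors ((p.2 + t * p.1) ^ 2 + 1)

open scoped Classical in
/-- the set of the positive integers `X` with `P X` has logarithmic density `0` -/
def LogNull (P : ℕ → Prop) : Prop :=
  Tendsto (fun Z : ℕ => (∑ X ∈ (Icc 1 Z).filter P, 1 / (X : ℝ)) / Real.log Z) atTop (nhds 0)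

/-- `u` and `v` are jointly equidistributed modulo `k` over the pairs `(d, n)`, at almost all scales:
for all `i, j` and `ε > 0` the set of the `X`, for which the proportion of the pairs `(d, n)`, `n < d ≤ X`,
`d ∣ n ^ 2 + 1`, with `u ≡ i` and `v ≡ j mod k` differs from `1 / k ^ 2` by more than `ε`, has
logarithmic density `0`. -/
def JointEqui (k : ℕ) (u v : ℕ × ℕ → ℕ) : Prop := ∀ i j : ℕ, ∀ ε : ℝ, 0 < ε → LogNull (fun X =>
  ε * ((pairs X).card : ℝ) <
    |(((pairs X).filter (fun p => u p ≡ i [MOD k] ∧ v p ≡ j [MOD k])).card : ℝ) -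
      (pairs X).card / (k : ℝ) ^ 2|)

open scoped Classical in
/-- the pairs `(d, n)` with `n < d ≤ X` and `d ∣ n ^ 2 + 1` such that for some `j` the number of the
`t ∈ S` with `Ω((n + t d) ^ 2 + 1) ≡ j mod k` differs from `|S| / k` by more than `ε |S|` -/
noncomputable def irregular (k : ℕ) (ε : ℝ) (S : Finset ℕ) (X : ℕ) : Finset (ℕ × ℕ) :=
  (pairs X).filter (fun p => ∃ j : ℕ,
    ε * S.card < |((S.filter (fun t => W t p ≡ j [MOD k])).card : ℝ) - (S.card : ℝ) / k|)

/-- The two point law: for `k ≥ 1`, the numbers `Ω(d)` and `Ω(((n + t d) ^ 2 + 1) / d)`,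
`t = 0, 1, 2, …`, are equidistributed modulo `k` and pairwise independent, over the pairs `(d, n)` with
`n < d ≤ X`, `d ∣ n ^ 2 + 1`, at almost all scales `X`. It implies for the numbers
`Ω((n + t d) ^ 2 + 1)`:

1. all four sign patterns `(λ((n + t d) ^ 2 + 1), λ((n + s d) ^ 2 + 1))`, `t ≠ s`, have proportion `1 / 4`;

2. equidistribution in almost all bounded progressions: let `k ≥ 1`, `ε > 0`, and let `S` be a finite set
of non-negative integers with at least `2 k / ε ^ 3` elements. For all `X` outside a set of logarithmic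
density `0`, for all but at most `ε |pairs X|` of the pairs `(d, n)`, the numbers
`Ω((n + t d) ^ 2 + 1)`, `t ∈ S`, are equidistributed modulo `k` up to `ε`. -/
theorem result :
    (∀ k : ℕ, 1 ≤ k → ∀ a b : Option ℕ, a ≠ b → JointEqui k (U a) (U b)) ∧
    (∀ t s : ℕ, t ≠ s → JointEqui 2 (W t) (W s)) ∧
    (∀ k : ℕ, 1 ≤ k → ∀ ε : ℝ, 0 < ε → ∀ S : Finset ℕ, 2 * k / ε ^ 3 ≤ (S.card : ℝ) →
      LogNull (fun X => ε * ((pairs X).card : ℝ) < ((irregular k ε S X).card : ℝ))) := by
  classical
  refine ⟨?_, ?_, ?_⟩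
  · intro k hk a b hab i j ε hε
    rcases a with _ | t
    · rcases b with _ | s
      · exact absurd rfl hab
      · exact Pool.Agent.T2H34.Dh.joint_law hk (Pool.Agent.T2H34.Dh.sml_md hk s).symm i j hε
    · rcases b with _ | s
      · exact Pool.Agent.T2H34.Dh.joint_law hk (Pool.Agent.T2H34.Dh.sml_md hk t) i j hε
      · have hts : t ≠ s := fun h => hab (by rw [h])
        exact Pool.Agent.T2H34.Dh.joint_law hk (Pool.Agent.T2H34.Dh.sml_mt hk hts) i j hε
  · intro t s hts i j ε hε
    exact Pool.Agent.T2H34.Dh.joint_law (by norm_num) (Pool.Agent.T2H34.Dh.sml_W hts) i j hε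
  · intro k hk ε hε S hS
    exact Pool.Agent.T2H34.Dh.aaW hk S hε hS

end Pool.Agent.Results.MP_7169d5_nt.ShortProgressions
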