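import Mathlib
import Pool.Agent.T2H34.DhBes

/-!
Patterns of the parities, and of the residues modulo `q`, of the numbers of prime factors of
`(n + t_1 d) ^ 2 + 1, …, (n + t_r d) ^ 2 + 1`, where `n < d` and `d ∣ n ^ 2 + 1`: Chowla's conjecture,
of all orders, for almost all tuples of shifts, and patterns of length three for all pairs of shifts
and almost all third shifts, and for all arithmetic progressions of shifts.

The proof rests on the two point law of `ShortProgressions` (the correlations for two different shifts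
are small). A second moment over the tuples of shifts gives part 1, Bessel's inequality part 2. Part 3
uses that the product of the three term products at `t` and at `t + h` is a two point correlation.
-/

set_option autoImplicit false

namespace Pool.Agent.Results.MP_7169d5_nt.SignPatterns

open Finset Filter ArithmeticFunction

/-- the pairs `(d, n)` with `n < d ≤ X` and `d ∣ n ^ 2 + 1` -/
def pairs (X : ℕ) : Finset (ℕ × ℕ) :=
  ((Icc 1 X) ×ˢ (range X)).filter (fun p => p.2 < p.1 ∧ p.1 ∣ p.2 ^ 2 + 1)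

/-- the number `Ω((n + t d) ^ 2 + 1)` of the pair `(d, n)` -/
def W (t : ℕ) (p : ℕ × ℕ) : ℕ := cardFactors ((p.2 + t * p.1) ^ 2 + 1)

open scoped Classical in
/-- the set of the positive integers `X` with `P X` has logarithmic density `0` -/
def LogNull (P : ℕ → Prop) : Prop :=
  Tendsto (fun Z : ℕ => (∑ X ∈ (Icc 1 Z).filter P, 1 / (X : ℝ)) / Real.log Z) atTop (nhds 0)

/-- the number of the pairs `(d, n)`, `n < d ≤ X`, `d ∣ n ^ 2 + 1`, with
`Ω((n + t_j d) ^ 2 + 1) ≡ i_j mod q` for all `j` -/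
def count (q : ℕ) {r : ℕ} (t i : Fin r → ℕ) (X : ℕ) : ℕ :=
  ((pairs X).filter (fun p => ∀ j, W (t j) p ≡ i j [MOD q])).card

/-- at the scale `X`, the proportion of some pattern modulo `q` at the shifts `t_1, …, t_r` differs
from `q ^ (-r)` by more than `δ` -/
def Bad (q : ℕ) {r : ℕ} (δ : ℝ) (t : Fin r → ℕ) (X : ℕ) : Prop :=
  ∃ i : Fin r → ℕ, δ * ((pairs X).card : ℝ) < |(count q t i X : ℝ) - (pairs X).card / (q : ℝ) ^ r|

open scoped Classical in
/-- 1. Let `q ≥ 1`, `r ≥ 0`, `δ > 0`, and let `S` be a finite set of non-negative integers with at least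
`4 q ^ (2 r) / δ ^ 6` elements. For all `X` outside a set of logarithmic density `0`, for all but at most
`δ |S| ^ r` of the tuples `(t_1, …, t_r)` of elements of `S`, every pattern of residues modulo `q` of the
numbers `Ω((n + t_j d) ^ 2 + 1)` has proportion within `δ` of `q ^ (-r)` among the pairs `(d, n)`,
`n < d ≤ X`, `d ∣ n ^ 2 + 1`. For `q = 2` these are the sign patterns of length `r` of Liouville's
function.

2. Let `a ≠ b` be non-negative integers, `S` a finite set of non-negative integers and `δ > 0`. For all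
`X` outside a set of logarithmic density `0`, for all but at most `2 / δ ^ 2` of the `c ∈ S` different
from `a` and `b`, all eight sign patterns of
`λ((n + a d) ^ 2 + 1), λ((n + b d) ^ 2 + 1), λ((n + c d) ^ 2 + 1)` have proportion within `δ` of `1 / 8`.

3. Let `t ≥ 0` and `h ≥ 1`. All eight sign patterns of
`λ((n + t d) ^ 2 + 1), λ((n + (t + h) d) ^ 2 + 1), λ((n + (t + 2 h) d) ^ 2 + 1)` have proportion at
least `1 / 16` on average over `t` and `t + h`: for every pattern and `ε > 0`, for all `X` outside a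
set of logarithmic density `0`, the number of the pairs with this pattern at `t` plus the number of the
pairs with this pattern at `t + h` is at least `(1 / 8 - ε) |pairs X|`. -/
theorem result :
    (∀ q : ℕ, 1 ≤ q → ∀ (r : ℕ) (δ : ℝ), 0 < δ → ∀ S : Finset ℕ,
      4 * (q : ℝ) ^ (2 * r) / δ ^ 6 ≤ (S.card : ℝ) →
      LogNull (fun X => δ * (S.card : ℝ) ^ r <
        (((Fintype.piFinset (fun _ : Fin r => S)).filter (fun t => Bad q δ t X)).card : ℝ))) ∧
    (∀ a b : ℕ, a ≠ b → ∀ (S : Finset ℕ) (δ : ℝ), 0 < δ → LogNull (fun X => 2 / δ ^ 2 <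
        ((S.filter (fun c => c ≠ a ∧ c ≠ b ∧ Bad 2 δ ![a, b, c] X)).card : ℝ))) ∧
    (∀ t h : ℕ, 1 ≤ h → ∀ (i : Fin 3 → ℕ) (ε : ℝ), 0 < ε → LogNull (fun X =>
      (count 2 (fun j => t + j * h) i X : ℝ) + count 2 (fun j => t + h + j * h) i X <
        (1 / 8 - ε) * ((pairs X).card : ℝ))) := by
  have hs : ∀ a b : ℕ, a ≠ b →
      Pool.Agent.T2H34.Dh.Sml 2 (Pool.Agent.T2H34.Dh.Wt a) (Pool.Agent.T2H34.Dh.Wt b) :=
    fun a b hab => Pool.Agent.T2H34.Dh.sml_W hab
  have e : ∀ (f i : Fin 3 → ℕ) (X : ℕ), count 2 f i X =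
      ((Pool.Agent.T2H34.Dh.DD X).filter (fun p =>
        Pool.Agent.T2H34.Dh.Wt (f 0) p ≡ i 0 [MOD 2] ∧
        Pool.Agent.T2H34.Dh.Wt (f 1) p ≡ i 1 [MOD 2] ∧
        Pool.Agent.T2H34.Dh.Wt (f 2) p ≡ i 2 [MOD 2])).card := by
    intro f i X
    unfold count
    apply congrArg
    apply filter_congr
    intro p _
    rw [Fin.forall_fin_succ, Fin.forall_fin_succ, Fin.forall_fin_succ]
    constructor
    · rintro ⟨a, b, c, -⟩
      exact ⟨a, b, c⟩
    · rintro ⟨a, b, c⟩
      exact ⟨a, b, c, fun j => j.elim0⟩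
  refine ⟨?_, ?_, ?_⟩
  · intro q hq r δ hδ S hS
    exact Pool.Agent.T2H34.Dh.many hq r S Pool.Agent.T2H34.Dh.Wt
      (fun b hb hb1 t _ s _ hts => Pool.Agent.T2H34.Dh.ls_W hq hb hb1 hts) hδ hS
  · intro a b hab S δ hδ
    have h1 := Pool.Agent.T2H34.Dh.third Pool.Agent.T2H34.Dh.Wt hs hab S hδ
    refine Pool.Agent.TH890.DV.LogNull.of_ev 0 (fun X _ h2 => ?_) h1
    refine lt_of_lt_of_le h2 ?_
    have hsub : (S.filter (fun c => c ≠ a ∧ c ≠ b ∧ Bad 2 δ ![a, b, c] X)) ⊆
        (S.filter (fun c => c ≠ a ∧ c ≠ b ∧ ∃ i₀ i₁ i₂ : ℕ,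
      δ * ((Pool.Agent.T2H34.Dh.DD X).card : ℝ) <
        |(((Pool.Agent.T2H34.Dh.DD X).filter (fun p => Pool.Agent.T2H34.Dh.Wt a p ≡ i₀ [MOD 2] ∧
        Pool.Agent.T2H34.Dh.Wt b p ≡ i₁ [MOD 2] ∧
        Pool.Agent.T2H34.Dh.Wt c p ≡ i₂ [MOD 2])).card : ℝ) -
        (Pool.Agent.T2H34.Dh.DD X).card / 8|)) := by
      intro c hc
      rw [mem_filter] at hc ⊢
      obtain ⟨hcS, hca, hcb, i, hi⟩ := hc
      refine ⟨hcS, hca, hcb, i 0, i 1, i 2, ?_⟩
      rw [e] at hi
      have e8 : ((2 : ℕ) : ℝ) ^ 3 = 8 := by norm_num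
      rw [e8] at hi
      exact hi
    exact_mod_cast card_le_card hsub
  · intro t h hh i ε hε
    have h1 := Pool.Agent.T2H34.Dh.three (hs t (t + h) (by omega)) (hs t (t + 2 * h) (by omega))
      (hs (t + h) (t + 2 * h) (by omega)) (hs (t + h) (t + 2 * h) (by omega))
      (hs (t + h) (t + 3 * h) (by omega)) (hs (t + 2 * h) (t + 3 * h) (by omega))
      (hs t (t + 3 * h) (by omega)) (fun X p _ => by
        refine ⟨Pool.Agent.T2H34.Dh.Wt t p + Pool.Agent.T2H34.Dh.Wt (t + h) p +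
          Pool.Agent.T2H34.Dh.Wt (t + 2 * h) p + Pool.Agent.T2H34.Dh.Wt (t + 3 * h) p, ?_⟩
        ring) (i 0) (i 1) (i 2) hε
    have e1 : ∀ X, count 2 (fun j => t + j * h) i X =
        ((Pool.Agent.T2H34.Dh.DD X).filter (fun p =>
          Pool.Agent.T2H34.Dh.Wt t p ≡ i 0 [MOD 2] ∧
          Pool.Agent.T2H34.Dh.Wt (t + h) p ≡ i 1 [MOD 2] ∧
          Pool.Agent.T2H34.Dh.Wt (t + 2 * h) p ≡ i 2 [MOD 2])).card := by
      intro X
      rw [e (fun j => t + j * h) i X]
      have k0 : t + ((0 : Fin 3) : ℕ) * h = t := by simp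
      have k1 : t + ((1 : Fin 3) : ℕ) * h = t + h := by simp
      have k2 : t + ((2 : Fin 3) : ℕ) * h = t + 2 * h := by simp
      simp only [k0, k1, k2]
    have e2 : ∀ X, count 2 (fun j => t + h + j * h) i X =
        ((Pool.Agent.T2H34.Dh.DD X).filter (fun p =>
          Pool.Agent.T2H34.Dh.Wt (t + h) p ≡ i 0 [MOD 2] ∧
          Pool.Agent.T2H34.Dh.Wt (t + 2 * h) p ≡ i 1 [MOD 2] ∧
          Pool.Agent.T2H34.Dh.Wt (t + 3 * h) p ≡ i 2 [MOD 2])).card := by
      intro X
      rw [e (fun j => t + h + j * h) i X]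
      have k0 : t + h + ((0 : Fin 3) : ℕ) * h = t + h := by simp
      have k1 : t + h + ((1 : Fin 3) : ℕ) * h = t + 2 * h := by simp; ring
      have k2 : t + h + ((2 : Fin 3) : ℕ) * h = t + 3 * h := by simp; ring
      simp only [k0, k1, k2]
    simp only [e1, e2]
    exact h1

end Pool.Agent.Results.MP_7169d5_nt.SignPatterns
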